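import Mathlib
import Pool.Agent.Helper35.HC.StA
import Pool.Agent.Helper35.HC.ScD

/-!
Project HC (MP_925021_gt), module TPA: the algebra at the touching point.
-/

set_option autoImplicit false

namespace Helper16.HC

open Helper35.HC Helper35.HSF Helper35.MS Helper35.PI Helper35.PI2 Helper32.CL
open scoped ContDiff Manifold Topology ENNReal BigOperators
open MeasureTheory Set Filter

theorem lc10 {n : ℕ} (K b : Fin n → Fin n → ℝ) : lc 1 0 K b = K := by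
  funext i j; simp [lc]

theorem lc01 {n : ℕ} (K b : Fin n → Fin n → ℝ) : lc 0 1 K b = b := by
  funext i j; simp [lc]

/-- squared norm of a combination of two orthonormal vectors -/
theorem nsq2 {N : ℕ} (ξ η : EE N) (h1 : ‖ξ‖ = 1) (h2 : ‖η‖ = 1) (h3 : (inner ℝ ξ η : ℝ) = 0)
    (a b : ℝ) : ‖a • ξ + b • η‖ ^ 2 = a ^ 2 + b ^ 2 := by
  rw [norm_add_sq_real, norm_smul, norm_smul, inner_smul_left, inner_smul_right, h1, h2, h3]
  simp

/-- scalar part of the estimate of the gradient terms -/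
theorem tpaS (n r E l x G' G'' t e S q : ℝ) (hn : 3 ≤ n) (hr : 0 < r) (hE : 0 < E) (hl0 : 0 < l)
    (hl1 : l ≤ 1) (he : 0 ≤ e) (hq : 0 ≤ q) (hG'' : 0 ≤ G'')
    (hT : 3 / (n + 2) * e ≤ t) (hS : S ≤ 4 * n ^ 2 * (r * x) * e)
    (hgr : G' + 2 * x * G'' ≤ 2 * E * (n - 1) / (n + 2)) :
    1 / r * (-2 * q) - 2 * E / (n * r) * (t - e / n) + l * G' * (2 / (r * n ^ 2)) * e
      + l * G'' * (1 / r ^ 2 * (S / n ^ 4)) ≤ 0 := by
  have hn0 : 0 < n := by linarith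
  have hn2 : 0 < n + 2 := by linarith
  have h1 : 1 / r * (-2 * q) ≤ 0 := by
    have : 0 ≤ 1 / r * (2 * q) := by positivity
    linarith
  have h2 : 2 * E / (n * r) * (3 / (n + 2) * e - e / n) ≤ 2 * E / (n * r) * (t - e / n) := by
    apply mul_le_mul_of_nonneg_left _ (by positivity)
    linarith
  have h3 : l * G'' * (1 / r ^ 2 * (S / n ^ 4))
      ≤ l * G'' * (1 / r ^ 2 * ((4 * n ^ 2 * (r * x) * e) / n ^ 4)) := by
    apply mul_le_mul_of_nonneg_left _ (by positivity)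
    apply mul_le_mul_of_nonneg_left _ (by positivity)
    exact div_le_div_of_nonneg_right hS (by positivity)
  have h4 : l * (G' + 2 * x * G'') ≤ 2 * E * (n - 1) / (n + 2) := by
    have hR : 0 ≤ 2 * E * (n - 1) / (n + 2) := by
      apply div_nonneg _ hn2.le
      apply mul_nonneg (by positivity)
      linarith
    rcases le_or_gt (G' + 2 * x * G'') 0 with h | h
    · exact le_trans (mul_nonpos_of_nonneg_of_nonpos hl0.le h) hR
    · calc l * (G' + 2 * x * G'') ≤ 1 * (G' + 2 * x * G'') :=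
            mul_le_mul_of_nonneg_right hl1 h.le
        _ ≤ _ := by rw [one_mul]; exact hgr
  have h5 : 0 ≤ 2 * e / (n ^ 2 * r) * (2 * E * (n - 1) / (n + 2) - l * (G' + 2 * x * G'')) := by
    apply mul_nonneg (by positivity)
    linarith
  have hid : 2 * e / (n ^ 2 * r) * (2 * E * (n - 1) / (n + 2) - l * (G' + 2 * x * G''))
      = 2 * E / (n * r) * (3 / (n + 2) * e - e / n) - l * G' * (2 / (r * n ^ 2)) * e
        - l * G'' * (1 / r ^ 2 * ((4 * n ^ 2 * (r * x) * e) / n ^ 4)) := by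
    field_simp
    ring
  linarith

theorem hTPA (hRCT : StRCT) (hTRV : StTRV) (hSQB : StSQB) (hSPL : StSPL) (hT3 : StT3) :
    StTPA := by
  intro n hn cK E D B c hK A T r L x₀ hA hT hr hx₀ hL hAL hAx hTx P Q hOP hmax l x hl0 hl1 hx heq
  obtain ⟨hK0, hE0, hD0, hB0, hc0, hKE⟩ := hK.pos
  have hn1 : 1 ≤ n := by omega
  have hn2 : 2 ≤ n := by omega
  have hn3 : (3 : ℝ) ≤ n := by exact_mod_cast hn
  have hnpos : (0 : ℝ) < n := by linarith
  obtain ⟨⟨K₁, b₁, ξ₁, η₁, hsK, hsb, hKB, hbil, -⟩, h2⟩ :=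
    hTRV n hn1 A r L x₀ hA hr hx₀ hL hAL hAx
  have hx0 : 0 ≤ x := by
    obtain ⟨-, hYY, -⟩ := hSQB n (n + 3) hn1 A K₁ b₁ r ξ₁ η₁ x₀ hsK hsb hKB _ rfl
    have hx1 : x = (mt K₁ ^ 2 + mt b₁ ^ 2) / r := by
      rw [hx, hYY]; field_simp; ring
    rw [hx1]; positivity
  refine ⟨hx0, ?_⟩
  have hG := Gx_pos hK hx0
  have hμ : 0 < ‖bilV A P Q‖ := by
    by_contra hcon
    have h0 : ‖bilV A P Q‖ = 0 := le_antisymm (not_lt.1 hcon) (norm_nonneg _)
    have hS := hSPL n hn2 K₁ b₁ 0 hsK hsb le_rfl (by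
      intro c' d' hcd
      have := hmax c' d' hcd
      rw [hbil c' d' hcd, h0] at this
      exact this)
    have e1 := (hS 1 0 (by norm_num)).2.1
    have e2 := (hS 0 1 (by norm_num)).2.1
    rw [lc10] at e1
    rw [lc01] at e2
    obtain ⟨-, -, hth, -⟩ := hSQB n (n + 3) hn1 A K₁ b₁ r ξ₁ η₁ x₀ hsK hsb hKB _ rfl
    have e3 : thA2 A ≤ 0 := by
      rw [hth]
      nlinarith
    have e4 : 0 < l * Gx cK D B c x := by positivity
    rw [← heq, h0] at e4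
    have e5 : ((0 : ℝ) ^ 2 + E / n * thA2 A) / r ≤ 0 := by
      apply div_nonpos_of_nonpos_of_nonneg _ hr.le
      have : E / n * thA2 A ≤ 0 := mul_nonpos_of_nonneg_of_nonpos (by positivity) e3
      linarith
    linarith
  obtain ⟨K, b, ξ, η, hKB2, hM⟩ := h2 P Q ‖bilV A P Q‖ hOP hmax hμ rfl
  obtain ⟨hHv, hYY, -⟩ := hSQB n (n + 3) hn1 A K b r ξ η x₀ hM.sK hM.sb hKB2 _ rfl
  have hx1 : x = (mt K ^ 2 + mt b ^ 2) / r := by
    rw [hx, hYY]; field_simp; ring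
  have hRC := hRCT n (n + 3) hn cK E D B c hK K b P Q ‖bilV A P Q‖ hM A r ξ η x₀ hKB2 l x
    hl0 hl1 hx1 heq
  -- the gradient of `YY`
  have hetx : ∀ k, (inner ℝ x₀ (et T k) : ℝ) = 0 := by
    intro k
    unfold et
    rw [inner_sum]
    apply Finset.sum_eq_zero
    intro i _
    rw [real_inner_comm]
    exact hTx i i k
  have hrx : r * x = ‖mt K • ξ + mt b • η‖ ^ 2 := by
    rw [nsq2 ξ η hKB2.nξ hKB2.nη hKB2.ξη, hx1]
    field_simp
  have hgY : ∀ k, gY A T k ^ 2 ≤ 4 * (n : ℝ) ^ 2 * (r * x) * ‖et T k‖ ^ 2 := by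
    intro k
    have e1 : (inner ℝ (Hv A) (et T k) : ℝ) = n * inner ℝ (mt K • ξ + mt b • η) (et T k) := by
      rw [hHv, inner_smul_left, inner_sub_left, inner_smul_left x₀, hetx k]
      simp
    have e2 : (inner ℝ (mt K • ξ + mt b • η) (et T k) : ℝ) ^ 2
        ≤ ‖mt K • ξ + mt b • η‖ ^ 2 * ‖et T k‖ ^ 2 := by
      have h := abs_real_inner_le_norm (mt K • ξ + mt b • η) (et T k)
      rw [← mul_pow, ← sq_abs]
      exact pow_le_pow_left₀ (abs_nonneg _) h 2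
    unfold gY
    rw [e1, hrx]
    have : (2 * (n * inner ℝ (mt K • ξ + mt b • η) (et T k)) : ℝ) ^ 2
        = 4 * (n : ℝ) ^ 2 * (inner ℝ (mt K • ξ + mt b • η) (et T k) : ℝ) ^ 2 := by ring
    rw [this, mul_assoc (4 * (n : ℝ) ^ 2)]
    exact mul_le_mul_of_nonneg_left e2 (by positivity)
  have hS : ∑ k, gY A T k ^ 2 ≤ 4 * (n : ℝ) ^ 2 * (r * x) * ∑ k, ‖et T k‖ ^ 2 := by
    rw [Finset.mul_sum]
    exact Finset.sum_le_sum fun k _ => hgY k
  have hGdd : 0 ≤ Gdd D B x := by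
    unfold Gdd
    positivity
  have hq : 0 ≤ ∑ m, ‖∑ i, ∑ j, (P i * Q j) • T i j m‖ ^ 2 :=
    Finset.sum_nonneg fun m _ => by positivity
  have he : 0 ≤ ∑ k, ‖et T k‖ ^ 2 := Finset.sum_nonneg fun m _ => by positivity
  have hgrad := tpaS n r E l x (Gd cK D B x) (Gdd D B x) (∑ i, ∑ j, ∑ k, ‖T i j k‖ ^ 2)
    (∑ k, ‖et T k‖ ^ 2) (∑ k, gY A T k ^ 2) (∑ m, ‖∑ i, ∑ j, (P i * Q j) • T i j m‖ ^ 2)
    hn3 hr hE0 hl0 hl1 he hq hGdd (hT3 n (n + 3) T hT) hS (sGR hn hK x hx0)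
  have hRC2 : 2 / r * (ReaP A P Q + E / n * (Sq A - ZZ A / n)
      - n * r * (‖bilV A P Q‖ ^ 2 + E / n * thA2 A)
      - l * Gd cK D B x * (ZZ A / n ^ 2 - n * r * (YY A / n ^ 2)))
      ≤ 2 / r * (-(n / 100) * r ^ 2 * (l * Gx cK D B c x)) :=
    mul_le_mul_of_nonneg_left hRC (by positivity)
  unfold hX hY
  generalize (∑ i, ∑ j, ∑ k, ‖T i j k‖ ^ 2) = t at *
  generalize (∑ k, ‖et T k‖ ^ 2) = e at *
  generalize (∑ k, gY A T k ^ 2) = S at *
  generalize (∑ m, ‖∑ i, ∑ j, (P i * Q j) • T i j m‖ ^ 2) = q at *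
  generalize ‖bilV A P Q‖ ^ 2 = μ2 at *
  have e1 : 2 / r * (-(n / 100) * r ^ 2 * (l * Gx cK D B c x))
      = -(n / 50) * r * (l * Gx cK D B c x) := by
    field_simp
    ring
  have e2 : 1 / r * ((-2 * q + 2 * ReaP A P Q)
          + E / n * ((-2 * t + 2 * Sq A) - (-2 * e + 2 * ZZ A) / n))
        - 2 * n * (μ2 + E / n * thA2 A)
        - l * Gd cK D B x * (1 / r * ((-2 * e + 2 * ZZ A) / n ^ 2) - 2 * n * (YY A / n ^ 2))
        + l * Gdd D B x * (1 / r ^ 2 * (S / n ^ 4))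
      = 2 / r * (ReaP A P Q + E / n * (Sq A - ZZ A / n)
      - n * r * (μ2 + E / n * thA2 A)
      - l * Gd cK D B x * (ZZ A / n ^ 2 - n * r * (YY A / n ^ 2)))
      + (1 / r * (-2 * q) - 2 * E / (n * r) * (t - e / n) + l * Gd cK D B x * (2 / (r * n ^ 2)) * e
      + l * Gdd D B x * (1 / r ^ 2 * (S / n ^ 4))) := by
    field_simp
    ring
  rw [e2]
  linarith

end Helper16.HC
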